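import Pool.Agent.Helper57.REC.Stmts4

/-!
# REC: the reciprocity law for abelian characters, from the case of prime power order
Proof: /team-store/rec_blueprint4.md
-/

set_option autoImplicit false

open scoped Classical
open NumberField

namespace REC

open Pool.Agent.Helper13.ZL (Pl q HasMean)
open MU (Gal Zb Over CongPow cyc)

variable {F : Type} [Field F] [NumberField F]

theorem h22_isFr_zpow {A : Type} [CommGroup A] {χ : Gal F →* A} {v : Pl F} {a : A}
    (h : IsFr χ v a) (k : ℤ) : IsFr (χ ^ k) v (a ^ k) := by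
  intro P hP j s hs
  have h1 := h P hP j s hs
  have h2 : (χ ^ k) s = (χ s) ^ k := by
    cases k with
    | ofNat n => rfl
    | negSucc n => rfl
  rw [h2, h1, ← zpow_natCast, ← zpow_natCast, ← zpow_mul, ← zpow_mul, mul_comm]

theorem h22_isPhi_zpow {A : Type} [CommGroup A] {χ : Gal F →* A} {B : Finset (Pl F)} {φ : Pl F → A}
    (h : IsPhi χ B φ) (k : ℤ) : IsPhi (χ ^ k) B (fun v => φ v ^ k) := by
  refine ⟨fun v hv => ?_, fun v hv => h22_isFr_zpow (h.2 v hv) k⟩
  show φ v ^ k = 1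
  rw [h.1 v hv, one_zpow]

theorem h22_ker_zpow {A : Type} [CommGroup A] {χ : Gal F →* A}
    (h : IsOpen (χ.ker : Set (Gal F))) (k : ℤ) : IsOpen ((χ ^ k).ker : Set (Gal F)) := by
  refine Subgroup.isOpen_mono (H₁ := χ.ker) ?_ h
  intro s hs
  rw [MonoidHom.mem_ker] at hs ⊢
  have h2 : (χ ^ k) s = (χ s) ^ k := by
    cases k with
    | ofNat n => rfl
    | negSucc n => rfl
  rw [h2, hs, one_zpow]

theorem h22_ray_mono {B : Finset (Pl F)} {N M : ℕ} (hNM : N ≤ M) {x : 𝓞 F} (h : Ray B M x) :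
    Ray B N x :=
  ⟨h.1, h.2.1, fun v hv => Ideal.pow_le_pow_right hNM (h.2.2 v hv)⟩

theorem h22_isRay_mono {B : Finset (Pl F)} {N M : ℕ} (hNM : N ≤ M) {f : Pl F → ℂˣ}
    (h : IsRay B N f) : IsRay B M f :=
  ⟨h.1, fun x hx => h.2 x (h22_ray_mono hNM hx)⟩

theorem h22_isRay_mul (hEV : ST_EV) {B : Finset (Pl F)} {N : ℕ} {f g : Pl F → ℂˣ}
    (hf : IsRay B N f) (hg : IsRay B N g) : IsRay B N (fun v => f v * g v) := by
  refine ⟨fun v hv => ?_, fun x hx => ?_⟩
  · show f v * g v = 1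
    rw [hf.1 v hv, hg.1 v hv, one_mul]
  · rw [(hEV F ℂˣ).2.2.2.1 f g _, hf.2 x hx, hg.2 x hx, one_mul]

theorem h22_pow_iff {G A : Type} [Group G] [CommGroup A] (χ : G →* A) (n : ℕ) :
    χ ^ n = 1 ↔ ∀ s, χ s ^ n = 1 := by
  constructor
  · intro h s
    exact DFunLike.congr_fun h s
  · intro h
    exact MonoidHom.ext h

theorem h22_zpow_apply {G A : Type} [Group G] [CommGroup A] (χ : G →* A) (k : ℤ) (s : G) :
    (χ ^ k) s = (χ s) ^ k := by
  cases k with
  | ofNat n => rfl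
  | negSucc n => rfl

/-- characters of finite order -/
theorem h22_finite_order (hREQ : ST_REQ) (hEV : ST_EV) (n : ℕ) : n ≠ 0 →
    ∀ χ : Gal F →* ℂˣ, IsOpen (χ.ker : Set (Gal F)) → χ ^ n = 1 →
      ∀ (B : Finset (Pl F)) (φ : Pl F → ℂˣ), IsPhi χ B φ → ∃ N : ℕ, 0 < N ∧ IsRay B N φ := by
  induction n using Nat.recOnPosPrimePosCoprime with
  | zero => exact fun h => absurd rfl h
  | one =>
    intro _ χ hχ h1 B φ hφ
    exact hREQ F 2 Nat.prime_two χ hχ ⟨0, by simpa using h1⟩ B φ hφ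
  | prime_pow p a hp ha =>
    intro _ χ hχ h1 B φ hφ
    exact hREQ F p hp χ hχ ⟨a, h1⟩ B φ hφ
  | coprime a b ha hb hab iha ihb =>
    intro _ χ hχ h1 B φ hφ
    have hbez : (a : ℤ) * a.gcdA b + b * a.gcdB b = 1 := by
      have := Nat.gcd_eq_gcd_ab a b
      rw [hab] at this
      exact_mod_cast this.symm
    have h1' : ∀ s, χ s ^ ((a : ℤ) * b) = 1 := by
      intro s
      rw [← Nat.cast_mul, zpow_natCast]; exact (h22_pow_iff χ _).mp h1 s
    obtain ⟨N1, hN1, hr1⟩ := ihb (by omega) (χ ^ ((a : ℤ) * a.gcdA b)) (h22_ker_zpow hχ _)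
      ((h22_pow_iff _ _).mpr fun s => by
        rw [h22_zpow_apply, ← zpow_natCast, ← zpow_mul, mul_assoc, mul_comm (a.gcdA b) (b : ℤ),
          ← mul_assoc, zpow_mul, h1', one_zpow]) B _ (h22_isPhi_zpow hφ _)
    obtain ⟨N2, hN2, hr2⟩ := iha (by omega) (χ ^ ((b : ℤ) * a.gcdB b)) (h22_ker_zpow hχ _)
      ((h22_pow_iff _ _).mpr fun s => by
        rw [h22_zpow_apply, ← zpow_natCast, ← zpow_mul, mul_assoc, mul_comm (a.gcdB b) (a : ℤ),
          ← mul_assoc, mul_comm (b : ℤ) (a : ℤ), zpow_mul, h1', one_zpow])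
      B _ (h22_isPhi_zpow hφ _)
    refine ⟨max N1 N2, lt_max_of_lt_left hN1, ?_⟩
    have h3 := h22_isRay_mul hEV (h22_isRay_mono (le_max_left N1 N2) hr1)
      (h22_isRay_mono (le_max_right N1 N2) hr2)
    have h4 : (fun v => φ v ^ ((a : ℤ) * a.gcdA b) * φ v ^ ((b : ℤ) * a.gcdB b)) = φ := by
      funext v
      rw [← zpow_add, hbez, zpow_one]
    rwa [h4] at h3

theorem st_REC (hREQ : ST_REQ) (hEV : ST_EV) (_hFRV : ST_FRV) (hOVP : ST_OVP) : ST_REC := by
  intro F _ _ A _ χ hχ B φ hφ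
  haveI : CompactSpace (Gal F) := inferInstance
  haveI hfi : χ.ker.FiniteIndex := by
    haveI : Finite (Gal F ⧸ χ.ker) := Subgroup.quotient_finite_of_isOpen χ.ker hχ
    exact Subgroup.finiteIndex_of_finite_quotient
  haveI hfin : Finite χ.range := by
    haveI : Finite (Gal F ⧸ χ.ker) := Subgroup.finite_quotient_of_finiteIndex
    exact Finite.of_equiv _ (QuotientGroup.quotientKerEquivRange χ).toEquiv
  -- the values are in the range
  have hmem : ∀ v, φ v ∈ χ.range := by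
    intro v
    by_cases hv : v ∈ B
    · rw [hφ.1 v hv]; exact one_mem _
    · obtain ⟨P, hP⟩ := (hOVP F).1 v
      obtain ⟨s, hs⟩ := (hOVP F).2.1 v P hP
      have h1 := hφ.2 v hv P hP 1 s (by rwa [pow_one])
      rw [pow_one] at h1
      exact ⟨s, h1⟩
  obtain ⟨φ', hφ'⟩ : ∃ φ' : Pl F → χ.range, ∀ v, φ v = (φ' v : A) :=
    ⟨fun v => ⟨φ v, hmem v⟩, fun v => rfl⟩
  have hev : ∀ I, ev φ I = ((ev φ' I : χ.range) : A) := by
    intro I
    have h1 := (hEV F χ.range).2.2.2.2.2.1 A χ.range.subtype φ' I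
    rw [show (fun v => χ.range.subtype (φ' v)) = φ from funext fun v => (hφ' v).symm] at h1
    exact h1
  have hphi' : IsPhi χ.rangeRestrict B φ' := by
    refine ⟨fun v hv => ?_, fun v hv P hP j s hs => ?_⟩
    · apply Subtype.ext
      rw [← hφ', hφ.1 v hv]; rfl
    · apply Subtype.ext
      have h1 := hφ.2 v hv P hP j s hs
      rw [hφ' v] at h1
      exact h1
  -- one character
  have hone : ∀ η : χ.range →* ℂˣ, ∃ N : ℕ, 0 < N ∧ IsRay B N (fun v => η (φ' v)) := by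
    intro η
    refine h22_finite_order hREQ hEV (Nat.card χ.range) Nat.card_pos.ne'
      (η.comp χ.rangeRestrict) ?_ ?_ B _ ?_
    · refine Subgroup.isOpen_mono (H₁ := χ.ker) ?_ hχ
      intro s hs
      rw [MonoidHom.mem_ker] at hs ⊢
      rw [MonoidHom.comp_apply]
      have : χ.rangeRestrict s = 1 := Subtype.ext hs
      rw [this, map_one]
    · ext s
      have : (η (χ.rangeRestrict s)) ^ Nat.card χ.range = 1 := by
        rw [← map_pow, pow_card_eq_one', map_one]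
      simpa using congrArg Units.val this
    · refine ⟨fun v hv => ?_, fun v hv P hP j s hs => ?_⟩
      · show η (φ' v) = 1
        rw [hphi'.1 v hv, map_one]
      · rw [MonoidHom.comp_apply, hphi'.2 v hv P hP j s hs, map_pow]
  -- separation
  have hsep : ∀ r : χ.range, r ≠ 1 → ∃ η : χ.range →* ℂˣ, η r ≠ 1 := by
    intro r hr
    haveI : NeZero (Monoid.exponent χ.range) := ⟨Monoid.exponent_ne_zero_of_finite⟩
    haveI : NeZero ((Monoid.exponent χ.range : ℕ) : ℂ) :=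
      ⟨by exact_mod_cast Monoid.exponent_ne_zero_of_finite (G := χ.range)⟩
    exact CommGroup.exists_apply_ne_one_of_hasEnoughRootsOfUnity χ.range ℂ hr
  have hch : ∀ r : χ.range, ∃ N : ℕ, 0 < N ∧ (r ≠ 1 → ∀ x : 𝓞 F, Ray B N x →
      ev φ' (Ideal.span {x}) ≠ r) := by
    intro r
    by_cases hr : r = 1
    · exact ⟨1, one_pos, fun h => absurd hr h⟩
    · obtain ⟨η, hη⟩ := hsep r hr
      obtain ⟨N, hN, hray⟩ := hone η
      refine ⟨N, hN, fun _ x hx he => hη ?_⟩
      have h1 := hray.2 x hx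
      rw [(hEV F χ.range).2.2.2.2.2.1 ℂˣ η φ' _, he] at h1
      exact h1
  choose N hN hNr using hch
  haveI := Fintype.ofFinite χ.range
  refine ⟨∑ r, N r, ?_, ?_⟩
  · exact Finset.sum_pos (fun r _ => hN r) ⟨1, Finset.mem_univ _⟩
  · intro x hx
    rw [hev]
    by_contra hne
    have hne' : ev φ' (Ideal.span {x}) ≠ 1 := by
      intro h
      apply hne
      rw [h]; rfl
    exact hNr _ hne' x (h22_ray_mono
      (Finset.single_le_sum (f := N) (fun r _ => Nat.zero_le _) (Finset.mem_univ _)) hx) rfl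

end REC
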