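import Pool.Agent.Helper57.REC.Stmts4

/-!
# TRK2: the ray characters which are trivial on norms are powers of the Frobenius function
Proof: /team-store/rec_blueprint4.md (Artin's trick)
-/

set_option autoImplicit false

open scoped Classical
open NumberField

namespace REC

open Pool.Agent.Helper13.ZL (Pl q HasMean)
open MU (Gal Zb Over CongPow cyc)

/-- the properties of the modulus `D` in `ST_CYP` -/
def h22_CYPat (F : Type) [Field F] [NumberField F] (D : ℕ) : Prop :=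
  ∀ (m : ℕ) [Fact m.Prime], ¬ m ∣ D →
    ∀ (lam : (ZMod m)ˣ →* ℂˣ),
      IsOpen ((lam.comp (cm F m)).ker : Set (Gal F)) ∧
      (∀ v : Pl F, (m : 𝓞 F) ∉ v.asIdeal → ∃ u : (ZMod m)ˣ, (u : ZMod m) = q v ∧
        IsFr (lam.comp (cm F m)) v (lam u)) ∧
      (∀ (A : Type) [Group A] (χ : Gal F →* A), IsOpen (χ.ker : Set (Gal F)) →
        (∀ v : Pl F, (m : 𝓞 F) ∈ v.asIdeal → Unr χ v) → ∀ u : (ZMod m)ˣ, ∃ σ : Gal F,
          χ σ = 1 ∧ cm F m σ = u) ∧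
      ∀ (B : Finset (Pl F)), (∀ v : Pl F, (m : 𝓞 F) ∈ v.asIdeal → v ∈ B) → ∀ N : ℕ, 0 < N →
        ∀ φ : Pl F → ℂˣ, IsPhi (lam.comp (cm F m)) B φ → IsRay B N φ

variable {F : Type} [Field F] [NumberField F]

theorem h22_finite_pl (m : ℕ) (hm : m ≠ 0) : {v : Pl F | (m : 𝓞 F) ∈ v.asIdeal}.Finite := by
  have hc' : (m : 𝓞 F) ≠ 0 := by exact_mod_cast hm
  have h1 : Ideal.span {(m : 𝓞 F)} ≠ 0 := by
    rw [Ne, Ideal.zero_eq_bot, Ideal.span_singleton_eq_bot]; exact hc'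
  refine (Ideal.finite_factors h1).subset ?_
  intro v hv
  exact Ideal.dvd_span_singleton.mpr hv

theorem h22_coprime {a b : ℕ} (h : a.Coprime b) (v : Pl F) (ha : (a : 𝓞 F) ∈ v.asIdeal) :
    (b : 𝓞 F) ∉ v.asIdeal := by
  intro hb
  have h1 : (a : ℤ) * a.gcdA b + b * a.gcdB b = 1 := by
    have := Nat.gcd_eq_gcd_ab a b
    rw [h] at this
    exact_mod_cast this.symm
  have h2 : (1 : 𝓞 F) = (a : 𝓞 F) * ((a.gcdA b : ℤ) : 𝓞 F) + b * ((a.gcdB b : ℤ) : 𝓞 F) := by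
    have := congrArg (fun z : ℤ => (z : 𝓞 F)) h1
    push_cast at this
    exact this.symm
  apply v.isPrime.ne_top
  rw [Ideal.eq_top_iff_one, h2]
  exact Ideal.add_mem _ (Ideal.mul_mem_right _ _ ha) (Ideal.mul_mem_right _ _ hb)

theorem h22_q_mem (v : Pl F) : ((q v : ℕ) : 𝓞 F) ∈ v.asIdeal := Ideal.absNorm_mem _

theorem h22_q_pos (v : Pl F) : 0 < q v := by
  rw [Nat.pos_iff_ne_zero]
  intro h
  have : v.asIdeal = ⊥ := Ideal.absNorm_eq_zero_iff.mp h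
  exact v.ne_bot this

theorem h22_prime_not_mem {m : ℕ} (hm : m.Prime) (v : Pl F) (h : ¬ m ∣ q v) :
    (m : 𝓞 F) ∉ v.asIdeal := by
  intro hmv
  exact h22_coprime ((Nat.Prime.coprime_iff_not_dvd hm).mpr h) v hmv (h22_q_mem v)

/-- a character of `(ZMod m)ˣ` with prescribed image -/
theorem h22_lam {m : ℕ} [Fact m.Prime] {n : ℕ} (hn : 0 < n) (h : n ∣ m - 1) :
    ∃ lam : (ZMod m)ˣ →* ℂˣ, (∀ z : ℂˣ, z ^ n = 1 → ∃ u, lam u = z) ∧ lam ^ n = 1 := by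
  obtain ⟨g, hg⟩ := IsCyclic.exists_generator (α := (ZMod m)ˣ)
  have hord : orderOf g = m - 1 := by
    rw [orderOf_eq_card_of_forall_mem_zpowers hg, Nat.card_eq_fintype_card, ZMod.card_units]
  have hprim : IsPrimitiveRoot (Complex.exp (2 * Real.pi * Complex.I / n)) n :=
    Complex.isPrimitiveRoot_exp n hn.ne'
  obtain ⟨w, hw⟩ : ∃ w : ℂˣ, IsPrimitiveRoot w n := by
    refine ⟨(hprim.isUnit hn.ne').unit, ?_⟩
    rw [← IsPrimitiveRoot.coe_units_iff]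
    exact hprim
  have hwo : orderOf w = n := hw.eq_orderOf.symm
  have hdvd : orderOf w ∣ orderOf g := by rw [hwo, hord]; exact h
  refine ⟨monoidHomOfForallMemZpowers hg hdvd, ?_, ?_⟩
  · intro z hz
    haveI : NeZero n := ⟨hn.ne'⟩
    have hz' : z ∈ rootsOfUnity n ℂ := hz
    have h1 : z ∈ Subgroup.zpowers w := by
      rw [hw.zpowers_eq]; exact hz'
    obtain ⟨k, hk⟩ := h1
    refine ⟨g ^ k, ?_⟩
    rw [map_zpow, monoidHomOfForallMemZpowers_apply_gen]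
    exact hk
  · refine MonoidHom.ext fun u => ?_
    obtain ⟨k, hk⟩ := hg u
    have hk' : g ^ k = u := hk
    show (monoidHomOfForallMemZpowers hg hdvd u) ^ n = 1
    rw [← hk', map_zpow, monoidHomOfForallMemZpowers_apply_gen, ← zpow_natCast, ← zpow_mul,
      mul_comm, zpow_mul, zpow_natCast, hw.pow_eq_one, one_zpow]

/-- TRK1 for one auxiliary cyclotomic character -/
theorem h22_app (hTRK1 : ST_TRK1) (hRST : ST_RST) (hFRV : ST_FRV)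
    {l : ℕ} (hl : l.Prime) {χ : Gal F →* ℂˣ} (hχ : IsOpen (χ.ker : Set (Gal F)))
    (ha : ∃ a : ℕ, χ ^ l ^ a = 1) {B : Finset (Pl F)} {φ : Pl F → ℂˣ} (hφ : IsPhi χ B φ)
    {D : ℕ} (hD : h22_CYPat F D) {m : ℕ} [Fact m.Prime] (hm : ¬ m ∣ D)
    (hmB : ∀ v ∈ B, (m : 𝓞 F) ∉ v.asIdeal)
    {lam : (ZMod m)ˣ →* ℂˣ} (hlam : ∃ a : ℕ, lam ^ l ^ a = 1)
    {N : ℕ} {f : Pl F → ℂˣ} (hf : f ∈ X χ.ker B N) :
    ∃ i : ℕ, ∀ v : Pl F, v ∉ B → (m : 𝓞 F) ∉ v.asIdeal → ∀ 𝔓 : Ideal (Zb F), OverP v 𝔓 →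
      ∀ σ : Gal F, CongPow 𝔓 (q v) σ → χ σ * lam (cm F m σ) = 1 → f v = χ σ ^ i := by
  obtain ⟨hopen, hfrob, hind, hray⟩ := hD m hm lam
  have hm0 : m ≠ 0 := (Fact.out : m.Prime).ne_zero
  have hunr : ∀ v : Pl F, v ∉ B → Unr χ v := fun v hv => (hFRV F ℂˣ χ v).2.1 (φ v) (hφ.2 v hv)
  have hunrm : ∀ v : Pl F, (m : 𝓞 F) ∈ v.asIdeal → Unr χ v :=
    fun v hv => hunr v fun hB => hmB v hB hv
  obtain ⟨B1, hB1⟩ : ∃ B1 : Finset (Pl F), ∀ v, v ∈ B1 ↔ v ∈ B ∨ (m : 𝓞 F) ∈ v.asIdeal := by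
    refine ⟨B ∪ (h22_finite_pl (F := F) m hm0).toFinset, fun v => ?_⟩
    rw [Finset.mem_union, Set.Finite.mem_toFinset]
    rfl
  choose! u hu using hfrob
  obtain ⟨φψ, hφψ⟩ : ∃ φψ : Pl F → ℂˣ, IsPhi (lam.comp (cm F m)) B1 φψ := by
    refine ⟨fun v => if v ∈ B1 then 1 else lam (u v), fun v hv => ?_, fun v hv => ?_⟩
    · simp only [if_pos hv]
    · simp only [if_neg hv]
      exact (hu v fun h => hv ((hB1 v).mpr (Or.inr h))).2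
  have hray1 : IsRay B1 1 φψ := hray B1 (fun v hv => (hB1 v).mpr (Or.inr hv)) 1 one_pos φψ hφψ
  have hf1 := (hRST F B B1 N (N + 1) (fun v hv => (hB1 v).mpr (Or.inl hv)) (Nat.le_succ N)
    (Nat.succ_pos N)).1 χ.ker f hf
  obtain ⟨b, hb⟩ := hlam
  obtain ⟨i, hi⟩ := hTRK1 F l hl χ (lam.comp (cm F m)) hχ hopen ha
    ⟨b, MonoidHom.ext fun s => DFunLike.congr_fun hb (cm F m s)⟩
    (by
      intro σ τ
      obtain ⟨ρ, hρ1, hρ2⟩ := hind ℂˣ χ hχ hunrm ((cm F m σ)⁻¹ * cm F m τ)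
      refine ⟨σ * ρ, ?_, ?_⟩
      · rw [map_mul, hρ1, mul_one]
      · rw [MonoidHom.comp_apply, MonoidHom.comp_apply, map_mul (cm F m), hρ2,
          mul_inv_cancel_left])
    B1 φψ (fun v hv => hunr v fun h => hv ((hB1 v).mpr (Or.inl h))) hφψ ⟨1, hray1⟩ (N + 1) _ hf1
  refine ⟨i, fun v hv hmv 𝔓 h𝔓 σ hσ h1 => ?_⟩
  have hvB1 : v ∉ B1 := by
    rw [hB1]
    rintro (h | h)
    · exact hv h
    · exact hmv h
  have h2 := hi v hvB1 𝔓 h𝔓 1 σ (by rwa [pow_one]) h1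
  simp only [if_neg hvB1, pow_one] at h2
  exact h2

theorem st_TRK2 (hTRK1 : ST_TRK1) (hCYP : ST_CYP) (hAXP : ST_AXP) (hDN1 : ST_DN1) (hRST : ST_RST)
    (hFRV : ST_FRV) (hOVP : ST_OVP) : ST_TRK2 := by
  intro F _ _ l hl χ hχ ha0 B φ hφ N f hf
  obtain ⟨a, ha⟩ := ha0
  have ha' : ∀ s, χ s ^ l ^ a = 1 := fun s => DFunLike.congr_fun ha s
  obtain ⟨D, hD0, hD'⟩ := hCYP F
  have hD : h22_CYPat F D := hD'
  have hla : 0 < l ^ a := pow_pos hl.pos a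
  obtain ⟨m, hmp, hmgt, hmod⟩ := Nat.exists_prime_gt_modEq_one (k := l ^ a) (D + ∑ v ∈ B, q v)
    hla.ne'
  haveI : Fact m.Prime := ⟨hmp⟩
  have hmD : ¬ m ∣ D := fun h => by
    have := Nat.le_of_dvd hD0 h
    omega
  have hmB : ∀ v ∈ B, (m : 𝓞 F) ∉ v.asIdeal := by
    intro v hv
    apply h22_prime_not_mem hmp
    intro h
    have h1 := Nat.le_of_dvd (h22_q_pos v) h
    have h2 : q v ≤ ∑ v ∈ B, q v :=
      Finset.single_le_sum (f := fun v : Pl F => q v) (fun _ _ => Nat.zero_le _) hv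
    omega
  have hdvd : l ^ a ∣ m - 1 := (Nat.modEq_iff_dvd' hmp.one_le).mp hmod.symm
  obtain ⟨lam, hlamsurj, hlamtors⟩ := h22_lam (m := m) hla hdvd
  obtain ⟨i, hi⟩ := h22_app hTRK1 hRST hFRV hl hχ ⟨a, ha⟩ hφ hD hmD hmB ⟨a, hlamtors⟩ hf
  refine ⟨i, funext fun v0 => ?_⟩
  rw [Pi.pow_apply]
  by_cases hv0 : v0 ∈ B
  · rw [hf.1.1 v0 hv0, hφ.1 v0 hv0, one_pow]
  obtain ⟨P0, hP0⟩ := (hOVP F).1 v0
  obtain ⟨s0, hs0⟩ := (hOVP F).2.1 v0 P0 hP0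
  have hφ0 : χ s0 = φ v0 := by
    have := hφ.2 v0 hv0 P0 hP0 1 s0 (by rwa [pow_one])
    rwa [pow_one] at this
  obtain ⟨p, e, hp, he, hq, hover, hpv⟩ := (hOVP F).2.2.2.1 v0 P0 hP0
  have hφtors : φ v0 ^ l ^ a = 1 := by rw [← hφ0]; exact ha' s0
  have hDpos : 0 < D * m * ∏ v ∈ B, q v :=
    Nat.mul_pos (Nat.mul_pos hD0 hmp.pos) (Finset.prod_pos fun v _ => h22_q_pos v)
  obtain ⟨m1, hm1, lam1, hm1D, hm1p, htors1, hval1⟩ := hAXP p e l a _ hp he hl hDpos (φ v0)⁻¹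
    (by rw [inv_pow, hφtors, inv_one])
  haveI := hm1
  have hm1p' : m1.Prime := hm1.out
  have hm1D' : ¬ m1 ∣ D := fun h => hm1D ((h.mul_right m).mul_right _)
  have hm1m : ¬ m1 ∣ m := fun h => hm1D ((h.mul_left D).mul_right _)
  have hm1B : ∀ v ∈ B, (m1 : 𝓞 F) ∉ v.asIdeal := by
    intro v hv
    apply h22_prime_not_mem hm1p'
    intro h
    exact hm1D ((h.trans (Finset.dvd_prod_of_mem (fun v : Pl F => q v) hv)).mul_left _)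
  obtain ⟨i1, hi1⟩ := h22_app hTRK1 hRST hFRV hl hχ ⟨a, ha⟩ hφ hD hm1D' hm1B htors1 hf
  have hm1v0 : (m1 : 𝓞 F) ∉ v0.asIdeal :=
    h22_coprime ((Nat.coprime_primes hp hm1p').mpr fun h => hm1p h.symm) v0 hpv
  obtain ⟨u, hu, hfr⟩ := (hD m1 hm1D' lam1).2.1 v0 hm1v0
  have hlam1u : lam1 u = (φ v0)⁻¹ := hval1 u (by rw [hu, hq]; push_cast; rfl)
  have hψ1 : lam1 (cm F m1 s0) = (φ v0)⁻¹ := by
    have := hfr P0 hP0 1 s0 (by rwa [pow_one])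
    rw [pow_one, hlam1u] at this
    exact this
  have h1 : f v0 = φ v0 ^ i1 := by
    have := hi1 v0 hv0 hm1v0 P0 hP0 s0 hs0 (by rw [hψ1, hφ0, mul_inv_cancel])
    rwa [hφ0] at this
  rw [h1]
  -- the two subgroups
  obtain ⟨ψ, hψdef⟩ : ∃ ψ : Gal F →* ℂˣ, ψ = lam.comp (cm F m) := ⟨_, rfl⟩
  obtain ⟨ψ1, hψ1def⟩ : ∃ ψ1 : Gal F →* ℂˣ, ψ1 = lam1.comp (cm F m1) := ⟨_, rfl⟩
  have hψa : ∀ s, ψ s = lam (cm F m s) := fun s => by rw [hψdef]; rfl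
  have hψ1a : ∀ s, ψ1 s = lam1 (cm F m1 s) := fun s => by rw [hψ1def]; rfl
  have hψo : IsOpen (ψ.ker : Set (Gal F)) := by rw [hψdef]; exact (hD m hmD lam).1
  have hψ1o : IsOpen (ψ1.ker : Set (Gal F)) := by rw [hψ1def]; exact (hD m1 hm1D' lam1).1
  obtain ⟨Y2, hY2n, hY2⟩ : ∃ Y2 : Subgroup (Gal F), Y2.Normal ∧
      ∀ s, s ∈ Y2 ↔ (χ s * ψ s = 1 ∧ χ s * ψ1 s = 1) := by
    refine ⟨((χ * ψ).prod (χ * ψ1)).ker, MonoidHom.normal_ker _, fun s => ?_⟩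
    rw [MonoidHom.mem_ker, MonoidHom.prod_apply, Prod.mk_eq_one]
    rfl
  obtain ⟨Y1, hY1n, hY1⟩ : ∃ Y1 : Subgroup (Gal F), Y1.Normal ∧
      ∀ s, s ∈ Y1 ↔ (s ∈ Y2 ∧ χ s ^ i1 = χ s ^ i) := by
    refine ⟨((χ * ψ).prod ((χ * ψ1).prod (χ ^ i1 / χ ^ i))).ker, MonoidHom.normal_ker _,
      fun s => ?_⟩
    rw [MonoidHom.mem_ker, MonoidHom.prod_apply, Prod.mk_eq_one, MonoidHom.prod_apply,
      Prod.mk_eq_one, hY2, and_assoc]
    have h3 : (χ ^ i1 / χ ^ i) s = 1 ↔ χ s ^ i1 = χ s ^ i := by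
      show χ s ^ i1 / χ s ^ i = 1 ↔ _
      rw [div_eq_one]
    rw [h3]
    rfl
  have hopen3 : IsOpen ((χ.ker ⊓ ψ.ker ⊓ ψ1.ker : Subgroup (Gal F)) : Set (Gal F)) := by
    rw [Subgroup.coe_inf, Subgroup.coe_inf]
    exact (hχ.inter hψo).inter hψ1o
  have hle : Y1 ≤ Y2 := fun s hs => ((hY1 s).mp hs).1
  have hY1o : IsOpen (Y1 : Set (Gal F)) := by
    refine Subgroup.isOpen_mono ?_ hopen3
    intro s hs
    obtain ⟨⟨h3, h4⟩, h5⟩ := hs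
    have h3' : χ s = 1 := h3
    have h4' : ψ s = 1 := h4
    have h5' : ψ1 s = 1 := h5
    rw [hY1, hY2, h3', h4', h5']
    simp
  have hY2o : IsOpen (Y2 : Set (Gal F)) := Subgroup.isOpen_mono hle hY1o
  obtain ⟨B', hB'⟩ : ∃ B' : Finset (Pl F), ∀ v, v ∈ B' ↔
      (v ∈ B ∨ (m : 𝓞 F) ∈ v.asIdeal ∨ (m1 : 𝓞 F) ∈ v.asIdeal) := by
    refine ⟨B ∪ ((h22_finite_pl (F := F) m hmp.ne_zero).toFinset ∪
      (h22_finite_pl (F := F) m1 hm1p'.ne_zero).toFinset), fun v => ?_⟩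
    rw [Finset.mem_union, Finset.mem_union, Set.Finite.mem_toFinset, Set.Finite.mem_toFinset]
    rfl
  have hYY : Y1 = Y2 := by
    refine hDN1 F Y1 Y2 hY1n hY2n hY1o hY2o hle B' ?_
    rintro v hv ⟨P, hP, hin, s, hs, hfrs⟩
    have hvB : v ∉ B := fun h => hv ((hB' v).mpr (Or.inl h))
    have hvm : (m : 𝓞 F) ∉ v.asIdeal := fun h => hv ((hB' v).mpr (Or.inr (Or.inl h)))
    have hvm1 : (m1 : 𝓞 F) ∉ v.asIdeal := fun h => hv ((hB' v).mpr (Or.inr (Or.inr h)))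
    have hunr : Unr χ v := (hFRV F ℂˣ χ v).2.1 (φ v) (hφ.2 v hvB)
    refine ⟨P, hP, fun t ht => ?_, s, ?_, hfrs⟩
    · rw [hY1]
      refine ⟨hin t ht, ?_⟩
      rw [hunr P hP t ht, one_pow, one_pow]
    · rw [hY1]
      refine ⟨hs, ?_⟩
      have h3 := (hY2 s).mp hs
      rw [hψa, hψ1a] at h3
      rw [← hi v hvB hvm P hP s hfrs h3.1, ← hi1 v hvB hvm1 P hP s hfrs h3.2]
  -- an element with prescribed values
  have hunrm : ∀ v : Pl F, (m : 𝓞 F) ∈ v.asIdeal → Unr χ v :=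
    fun v hv => (hFRV F ℂˣ χ v).2.1 (φ v) (hφ.2 v fun hB => hmB v hB hv)
  obtain ⟨u2, hu2⟩ := hlamsurj ((φ v0)⁻¹ * (ψ s0)⁻¹) (by
    have h3 : ψ s0 ^ l ^ a = 1 := by
      rw [hψa]; exact DFunLike.congr_fun hlamtors (cm F m s0)
    rw [mul_pow, inv_pow, inv_pow, hφtors, h3, inv_one, one_mul])
  obtain ⟨s1, hs1, hs1'⟩ := (hD m hmD lam).2.2.1 ℂˣ χ hχ hunrm u2
  have hunrm1 : ∀ v : Pl F, (m1 : 𝓞 F) ∈ v.asIdeal → Unr (χ.prod ψ) v := by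
    intro v hv P hP t ht
    have hvB : v ∉ B := fun h => hm1B v h hv
    have hvm : (m : 𝓞 F) ∉ v.asIdeal :=
      h22_coprime ((Nat.Prime.coprime_iff_not_dvd hm1p').mpr hm1m) v hv
    have h3 : χ t = 1 := (hFRV F ℂˣ χ v).2.1 (φ v) (hφ.2 v hvB) P hP t ht
    obtain ⟨u', -, hfr'⟩ := (hD m hmD lam).2.1 v hvm
    have h4 : ψ t = 1 := by
      rw [hψdef]
      exact (hFRV F ℂˣ (lam.comp (cm F m)) v).2.1 _ hfr' P hP t ht
    rw [MonoidHom.prod_apply, h3, h4]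
    rfl
  have hprodo : IsOpen ((χ.prod ψ).ker : Set (Gal F)) := by
    refine Subgroup.isOpen_mono ?_ hopen3
    intro s hs
    obtain ⟨⟨h3, h4⟩, -⟩ := hs
    have h3' : χ s = 1 := h3
    have h4' : ψ s = 1 := h4
    rw [MonoidHom.mem_ker, MonoidHom.prod_apply, h3', h4']
    rfl
  -- the value of the third character: multiply by a preimage
  obtain ⟨s2, hs2, hs2'⟩ := (hD m1 hm1D' lam1).2.2.1 (ℂˣ × ℂˣ) (χ.prod ψ) hprodo hunrm1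
    (u * (cm F m1 (s0 * s1))⁻¹)
  rw [MonoidHom.prod_apply, Prod.mk_eq_one] at hs2
  obtain ⟨s, hsdef⟩ : ∃ s : Gal F, s = s0 * s1 * s2 := ⟨_, rfl⟩
  have hsχ : χ s = φ v0 := by
    rw [hsdef, map_mul, map_mul, hs1, hs2.1, mul_one, mul_one, hφ0]
  have hsψ : ψ s = (φ v0)⁻¹ := by
    rw [hsdef, map_mul, map_mul, hs2.2, mul_one, hψa s1, hs1', hu2,
      mul_comm (φ v0)⁻¹, mul_inv_cancel_left]
  have hsψ1 : ψ1 s = (φ v0)⁻¹ := by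
    rw [hψ1a, hsdef, map_mul (cm F m1) (s0 * s1) s2, hs2',
      mul_comm u, mul_inv_cancel_left, hlam1u]
  have hsY2 : s ∈ Y2 := by
    rw [hY2, hsχ, hsψ, hsψ1, mul_inv_cancel]
    exact ⟨rfl, rfl⟩
  rw [← hYY, hY1, hsχ] at hsY2
  exact hsY2.2

end REC
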